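import Mathlib
import Pool.Agent.Q34.S3

set_option autoImplicit false

namespace Pool.Agent.Results.MP_e70f96_nt.ModPCubed

open Finset Pool.Agent.Helper857.Pad Pool.Agent.Q34 Pool.Agent.Q34.Red
open scoped Nat

/-- rising factorial `(a)_k = a (a+1) ... (a+k-1)` -/
def poch (a : ℚ) (k : ℕ) : ℚ := ∏ i ∈ range k, (a + i)

/-- `S(p) = ∑_{k=0}^{(p+1)/3} (6k-1) (-1/3)_k^4 (2k)! / (k!^4 (-2/3)_{2k})` -/
def S (p : ℕ) : ℚ :=
  ∑ k ∈ range ((p + 1) / 3 + 1),
    (6 * k - 1) * (poch (-1 / 3) k ^ 4 * (((2 * k)! : ℕ) : ℚ) /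
      (((k ! : ℕ) : ℚ) ^ 4 * poch (-2 / 3) (2 * k)))

lemma two : S 2 - 2 = 2 ^ 3 * (-4 / 9) := by
  unfold S poch
  simp [sum_range_succ, prod_range_succ, Nat.factorial]
  norm_num

/-- For every prime `p ≡ 2 (mod 3)`, `S(p) ≡ p (mod p^3)`. -/
theorem result (p : ℕ) (hp : p.Prime) (h3 : p % 3 = 2) : Cong p 3 (S p) p := by
  by_cases hp2 : p = 2
  · subst hp2
    exact ⟨-4 / 9, by norm_num, by exact_mod_cast two⟩
  have : Fact p.Prime := ⟨hp⟩
  have hodd : p % 2 = 1 := by
    rcases hp.eq_two_or_odd with h | h <;> omega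
  have hp5 : 5 ≤ p := by
    have := hp.two_le
    omega
  obtain ⟨n, hn⟩ : ∃ n, p + 1 = 3 * n := ⟨(p + 1) / 3, by omega⟩
  have u3 : Un p (3 : ℚ) := by exact_mod_cast Un.nat_lt (p := p) (n := 3) (by norm_num) (by omega)
  have u2 : Un p (2 : ℚ) := by exact_mod_cast Un.nat_lt (p := p) (n := 2) (by norm_num) (by omega)
  have u6 : Un p (6 : ℚ) := by have := u2.mul u3; norm_num at this; exact this
  have hpq : (p : ℚ) + 1 = 3 * n := by exact_mod_cast hn
  have hx : I p 1 ((p : ℚ) / 3) := ⟨3⁻¹, u3.2.2, by rw [pow_one]; ring⟩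
  have hne1 : ∀ i : ℕ, (-1 / 3 : ℚ) + i ≠ 0 := fun i h0 => by
    have h1 : ((3 * i : ℕ) : ℚ) = ((1 : ℕ) : ℚ) := by push_cast; linarith
    have h2 : 3 * i = 1 := by exact_mod_cast h1
    omega
  have hne2 : ∀ i : ℕ, (1 / 2 + -1 / 3 : ℚ) + i ≠ 0 := fun i => by positivity
  have M := S3.main (p := p) (a := -1 / 3) (x := (p : ℚ) / 3) (n := n) (by linarith) hx
    (by omega) (by omega) (by
      have := (Zp p).neg_mem u3.2.2
      convert this using 1
      norm_num)
    (fun i hi => by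
      have h1 : Un p ((3 * (i : ℤ) - 1 : ℤ) : ℚ) := Un.int (by
        intro hd
        rcases Nat.eq_zero_or_pos i with rfl | hi0
        · have : (p : ℤ) ∣ 1 := by simpa using hd
          have := Int.le_of_dvd (by norm_num) this
          omega
        · have := Int.le_of_dvd (by omega) hd
          omega)
      have := h1.div u3
      convert this using 1
      push_cast; ring)
    (fun i hi => by
      have h1 : Un p ((6 * i + 1 : ℕ) : ℚ) := Un.nat (by
        rintro ⟨c, hc⟩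
        have : c < 2 := by
          by_contra hcon
          have : p * 2 ≤ p * c := Nat.mul_le_mul_left _ (by omega)
          omega
        interval_cases c <;> omega)
      have := h1.div u6
      convert this using 1
      push_cast; ring)
    hne2
    (fun i h0 => by
      have h1 : ((3 + 3 * i : ℕ) : ℚ) = ((p : ℕ) : ℚ) := by push_cast; linarith
      have h2 : 3 + 3 * i = p := by exact_mod_cast h1
      omega)
    hne1
  have hS : S p = 3 * ∑ k ∈ range (n + 1), (-1 / 3 + 2 * (k : ℚ)) * (S3.v (-1 / 3) k * S3.Q (-1 / 3) k) := by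
    unfold S
    rw [show (p + 1) / 3 = n by omega, mul_sum]
    refine sum_congr rfl fun k _ => ?_
    rw [← S3.term_eq (-1 / 3) k hne1 hne2, show (2 : ℚ) * (-1 / 3) = -2 / 3 by norm_num]
    change _ = 3 * ((-1 / 3 + 2 * (k : ℚ)) * (poch (-1 / 3) k ^ 4 * (((2 * k)! : ℕ) : ℚ) /
      (((k ! : ℕ) : ℚ) ^ 4 * poch (-2 / 3) (2 * k))))
    ring
  apply cong_of_I
  rw [hS]
  have := I.mem_mul u3.2.1 M
  convert this using 1
  ring

end Pool.Agent.Results.MP_e70f96_nt.ModPCubed
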